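import Pool.Agent.helper85.T7.SpecS

set_option autoImplicit false

/-!
# T7, row SUC7: the pairs with a large greatest common divisor
-/

namespace Pool.Agent.T7

open Finset NumberField Pool.Agent.helper3.FT Pool.Agent.helper47.RA Pool.Agent.T5 Pool.Agent.T6

lemma SUC7_fin {K : Type} [Field K] [NumberField K] (Q : QF K) (hD : Q.D < 0)
    (κ N Y Y₂ : ℝ) (g : ℕ) : (GG7 Q κ N Y Y₂ g).Finite := by
  have h1 : (⋃ a ∈ IA K Y, (fun α => (a, α)) '' AL Q a (Y₂ * √(-(Q.D : ℝ)) / √N)).Finite :=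
    Set.Finite.biUnion (Pool.Agent.T5.SFA.1 K Y) (fun a _ => (Pool.Agent.T5.SFA.2.1 K Q hD a _).image _)
  refine h1.subset ?_
  rintro ⟨a, α⟩ ⟨h2, h3, -⟩
  exact Set.mem_biUnion h2 ⟨α, h3, rfl⟩

lemma SUC7_tup {K : Type} [Field K] [NumberField K] (Q : QF K) (hD : Q.D < 0)
    (κ N Y Y₂ : ℝ) (g : ℕ) (hN : 0 < N) (hY : 0 < Y) (hY₂ : 0 < Y₂) (hg : 1 ≤ g) (hD1 : N / 2 < -(Q.D : ℝ))
    (hD2 : -(Q.D : ℝ) ≤ N) (x : Ideal (𝓞 K) × 𝓞 K) (hx : x ∈ GG7 Q κ N Y Y₂ g) (γ : 𝓞 K)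
    (hA : Adm Q x.1 x.2 γ) (hG : GoodR Q κ Y₂ x.1 x.2 γ) (t : Tpl)
    (ht : TupOf Q x.1 x.2 γ g t) : Cen κ (N * (g : ℝ) ^ 2) Y Y₂ t := by
  obtain ⟨h1, h2, -⟩ := hx
  rw [Pool.Agent.T5.ACEN K Q hD x.1 x.2 γ g t hA ht hg κ N Y Y₂ hN hY hY₂]
  exact ⟨h1.2.2.2.2.1, h1.2.2.2.2.2, hD1, hD2, h2.2.2, hG⟩

lemma SUC7_one (κ N Y Y₂ : ℝ) (g : ℕ)
    (hN : 10 ≤ N) (hY : 0 < Y) (hY₂ : 0 < Y₂) (hg : 1 ≤ g) (D : ℤ) (hD : D ∈ DN N) :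
    ∃ FD : Finset Tpl, (FD.card : ℝ) = SF (fun _ E => ((GG7 E.Q κ N Y Y₂ g).ncard : ℝ)) D ∧
      ∀ t ∈ FD, Cen κ (N * (g : ℝ) ^ 2) Y Y₂ t ∧ dis t = D * (g : ℤ) ^ 2 := by
  classical
  by_cases h : Nonempty (Fld D)
  · have hSF : SF (fun _ E => ((GG7 E.Q κ N Y Y₂ g).ncard : ℝ)) D =
        ((GG7 h.some.Q κ N Y Y₂ g).ncard : ℝ) := by
      unfold SF
      rw [dif_pos h]
    obtain ⟨E, hE⟩ : ∃ E : Fld D, E = h.some := ⟨_, rfl⟩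
    rw [hSF, ← hE]
    unfold DN at hD
    rw [mem_filter, mem_Icc] at hD
    obtain ⟨⟨hD1, -⟩, -, hD3⟩ := hD
    have hDE : (E.Q.D : ℝ) = D := by rw [E.hD]
    have hD4 : -(E.Q.D : ℝ) ≤ N := by
      rw [hDE]
      have h5 : -(D : ℝ) ≤ (⌊N⌋ : ℝ) := by
        have : -D ≤ ⌊N⌋ := by omega
        exact_mod_cast this
      exact h5.trans (Int.floor_le N)
    have hD5 : N / 2 < -(E.Q.D : ℝ) := by rw [hDE]; exact hD3
    have hD6 : E.Q.D < -4 := by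
      have : (E.Q.D : ℝ) < ((-4 : ℤ) : ℝ) := by push_cast; linarith
      exact_mod_cast this
    have hD7 : E.Q.D < 0 := by omega
    have hfin := SUC7_fin E.Q hD7 κ N Y Y₂ g
    obtain ⟨φ, hφ1, hφ2, -⟩ := all_ALG E.K E.Q E.fin hD6
    refine ⟨hfin.toFinset.image (fun x => φ x.1 x.2), ?_, ?_⟩
    · rw [card_image_of_injOn, Set.ncard_eq_toFinset_card _ hfin]
      intro x hx x' hx' hxx
      rw [Set.Finite.coe_toFinset] at hx hx'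
      obtain ⟨-, -, γ, hA, -, hgd⟩ := hx
      obtain ⟨-, -, γ', hA', -, hgd'⟩ := hx'
      have h6 := hφ2 x.1 x.2 γ x'.1 x'.2 γ' hA hA' (by rw [hgd, hgd']) hxx
      exact Prod.ext h6.1 h6.2
    · intro t ht
      obtain ⟨x, hx, rfl⟩ := mem_image.1 ht
      rw [Set.Finite.mem_toFinset] at hx
      have hx2 := hx
      obtain ⟨-, -, γ, hA, hG, hgd⟩ := hx2
      have hT := hφ1 x.1 x.2 γ hA
      rw [hgd] at hT
      refine ⟨SUC7_tup E.Q hD7 κ N Y Y₂ g (by linarith) hY hY₂ hg hD5 hD4 x hx γ hA hG _ hT, ?_⟩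
      rw [hT.D, E.hD]
  · refine ⟨∅, ?_, by simp⟩
    unfold SF
    rw [dif_neg h]
    simp

theorem SUC7 (hGT7 : GT7_stmt) : SUC7_stmt := by
  classical
  intro hTD
  obtain ⟨η', hη', hB⟩ := hTD
  refine ⟨min η' (1 / 100), lt_min hη' (by norm_num), min_le_right _ _, fun κ hκ hκ1 => ?_⟩
  obtain ⟨C₁, K, N₁, hC₁, hK, hB⟩ := hB κ 1 hκ le_rfl
  obtain ⟨C₂, hC₂, hG⟩ := hGT7 K hK
  refine ⟨C₁ * C₂, max N₁ 10, one_le_mul_of_one_le_of_one_le hC₁ hC₂, ?_⟩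
  intro w hw N Y Y₂ hN hY hR
  have hN0 : N₁ ≤ N := (le_max_left _ _).trans hN
  have hN10 : (10 : ℝ) ≤ N := (le_max_right _ _).trans hN
  have hY₂ : 0 < Y₂ := hY.trans_le hR.r1
  have hN1 : (1 : ℝ) ≤ N := by linarith
  have hR' : Rg η' N Y Y₂ := Rg_mono (min_le_left _ _) hN1 hY.le hR
  have hηN : N ^ (min η' (1 / 100)) ≤ N ^ η' := Real.rpow_le_rpow_of_exponent_le hN1 (min_le_left _ _)
  have hone : ∀ g ∈ g7 w (N ^ (min η' (1 / 100))), ∑ D ∈ DN N, SF (fun _ E => ((GG7 E.Q κ N Y Y₂ g).ncard : ℝ)) D ≤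
      C₁ * (Y * Y₂) * ∏ p ∈ g.primeFactors, gg K p (g.factorization p) := by
    intro g hg
    unfold g7 at hg
    rw [mem_filter, mem_Icc] at hg
    obtain ⟨⟨hg1, hg2⟩, -⟩ := hg
    have hgN : (g : ℝ) ≤ N ^ η' := by
      have : (g : ℝ) ≤ N ^ (min η' (1 / 100)) := (Nat.le_floor_iff (by positivity)).1 hg2
      exact this.trans hηN
    have hex := SUC7_one κ N Y Y₂ g hN10 hY hY₂ hg1
    choose! FD hFD1 hFD2 using hex
    have hdisj : ∀ D ∈ DN N, ∀ D' ∈ DN N, D ≠ D' → Disjoint (FD D) (FD D') := by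
      intro D hD D' hD' hne
      rw [Finset.disjoint_left]
      intro t ht ht'
      have h1 := (hFD2 D hD t ht).2
      have h2 := (hFD2 D' hD' t ht').2
      rw [h1] at h2
      have h3 : (g : ℤ) ^ 2 ≠ 0 := pow_ne_zero 2 (by exact_mod_cast (by omega : g ≠ 0))
      exact hne (mul_right_cancel₀ h3 h2)
    have hcard : (((DN N).biUnion FD).card : ℝ) =
        ∑ D ∈ DN N, SF (fun _ E => ((GG7 E.Q κ N Y Y₂ g).ncard : ℝ)) D := by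
      rw [card_biUnion hdisj, Nat.cast_sum]
      exact Finset.sum_congr rfl fun D hD => hFD1 D hD
    rw [← hcard]
    refine hB N Y Y₂ hN0 hR'.r1 hR'.r2 (by rw [one_mul]; exact hR'.r3) hR'.r4 g hg1 hgN _ ?_
    intro t ht
    obtain ⟨D, hD, htD⟩ := mem_biUnion.1 ht
    obtain ⟨a1, a2⟩ := hFD2 D hD t htD
    exact ⟨a1, by rw [a2]; exact dvd_mul_left _ _⟩
  refine (Finset.sum_le_sum hone).trans ?_
  rw [← Finset.mul_sum]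
  have h9 := hG w ⌊N ^ (min η' (1 / 100))⌋₊ (by omega)
  have h10 : ∑ g ∈ g7 w (N ^ (min η' (1 / 100))), ∏ p ∈ g.primeFactors, gg K p (g.factorization p) ≤ C₂ / (w : ℝ) ^ (1 / 8 : ℝ) := by
    unfold g7
    exact h9
  have hYY : 0 ≤ C₁ * (Y * Y₂) := by positivity
  calc C₁ * (Y * Y₂) * ∑ g ∈ g7 w (N ^ (min η' (1 / 100))), ∏ p ∈ g.primeFactors, gg K p (g.factorization p)
      ≤ C₁ * (Y * Y₂) * (C₂ / (w : ℝ) ^ (1 / 8 : ℝ)) := mul_le_mul_of_nonneg_left h10 hYY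
    _ = C₁ * C₂ / (w : ℝ) ^ (1 / 8 : ℝ) * (Y * Y₂) := by ring

end Pool.Agent.T7
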