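import Pool.Agent.helper88.T7.SpecR7

set_option autoImplicit false

/-!
# T7, row ZNB: dyadic boxes, all classes of order 5
-/

namespace Pool.Agent.T7

open Finset NumberField Pool.Agent.helper3.FT Pool.Agent.helper47.RA Pool.Agent.T5 Pool.Agent.T6
open scoped nonZeroDivisors

lemma ZNB_tail (i J : ℕ) : ∑ j ∈ (range J).filter (fun j => i ≤ j), (1 : ℝ) / 2 ^ j ≤ 2 / 2 ^ i := by
  have h1 : (range J).filter (fun j => i ≤ j) ⊆ (range J).image (fun k => i + k) := by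
    intro j hj
    rw [mem_filter, mem_range] at hj
    rw [mem_image]
    exact ⟨j - i, mem_range.2 (by omega), by omega⟩
  calc ∑ j ∈ (range J).filter (fun j => i ≤ j), (1 : ℝ) / 2 ^ j
      ≤ ∑ j ∈ (range J).image (fun k => i + k), (1 : ℝ) / 2 ^ j :=
        sum_le_sum_of_subset_of_nonneg h1 (fun _ _ _ => by positivity)
    _ = ∑ k ∈ range J, (1 : ℝ) / 2 ^ (i + k) := sum_image (fun a _ b _ h => by simpa using h)
    _ = (1 / 2 ^ i) * ∑ k ∈ range J, (1 : ℝ) / 2 ^ k := by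
        rw [mul_sum]
        refine sum_congr rfl fun k _ => ?_
        rw [pow_add, one_div_mul_one_div]
    _ ≤ (1 / 2 ^ i) * 2 := mul_le_mul_of_nonneg_left (ZL_geo J) (by positivity)
    _ = 2 / 2 ^ i := by ring

lemma ZNB_rowD (I i b : ℕ) : ∑ j ∈ range I, (if i + b ≤ j then (1 : ℝ) / 2 ^ (max i j) else 0) ≤ 2 / 2 ^ (i + b) := by
  rw [← sum_filter]
  refine le_trans (le_of_eq ?_) (ZNB_tail (i + b) I)
  refine sum_congr rfl fun j hj => ?_
  rw [mem_filter] at hj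
  rw [max_eq_right (by omega)]

lemma ZNB_rowN (I i b : ℕ) : ∑ j ∈ range I, (if i ≤ j + b then (1 : ℝ) / 2 ^ (max i j) else 0) ≤ ((b : ℝ) + 2) / 2 ^ i := by
  have h1 : ∀ j ∈ range I, (if i ≤ j + b then (1 : ℝ) / 2 ^ (max i j) else 0) ≤
      (if j ∈ Icc (i - b) i then (1 : ℝ) / 2 ^ i else 0) + (if i + 1 ≤ j then (1 : ℝ) / 2 ^ j else 0) := by
    intro j _
    by_cases h : i ≤ j + b
    · rw [if_pos h]
      by_cases h2 : i + 1 ≤ j
      · rw [if_pos h2, max_eq_right (by omega)]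
        have : (0 : ℝ) ≤ if j ∈ Icc (i - b) i then (1 : ℝ) / 2 ^ i else 0 := by split_ifs <;> positivity
        linarith
      · rw [if_neg h2, max_eq_left (by omega), if_pos (mem_Icc.2 ⟨by omega, by omega⟩), add_zero]
    · rw [if_neg h]
      refine add_nonneg ?_ ?_ <;> (split_ifs <;> positivity)
  refine (sum_le_sum h1).trans ?_
  rw [sum_add_distrib, ← sum_filter, ← sum_filter, sum_const, nsmul_eq_mul]
  have h2 : (((range I).filter fun j => j ∈ Icc (i - b) i).card : ℝ) ≤ (b : ℝ) + 1 := by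
    have : ((range I).filter fun j => j ∈ Icc (i - b) i).card ≤ (Icc (i - b) i).card :=
      card_le_card fun j hj => (mem_filter.1 hj).2
    rw [Nat.card_Icc] at this
    have h3 : ((range I).filter fun j => j ∈ Icc (i - b) i).card ≤ b + 1 := by omega
    exact_mod_cast h3
  have h3 := ZNB_tail (i + 1) I
  have e : (2 : ℝ) / 2 ^ (i + 1) = 1 / 2 ^ i := by
    rw [pow_succ]
    field_simp
  rw [e] at h3
  calc (((range I).filter fun j => j ∈ Icc (i - b) i).card : ℝ) * (1 / 2 ^ i) + ∑ j ∈ (range I).filter (fun j => i + 1 ≤ j), (1 : ℝ) / 2 ^ j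
      ≤ ((b : ℝ) + 1) * (1 / 2 ^ i) + 1 / 2 ^ i := add_le_add (mul_le_mul_of_nonneg_right h2 (by positivity)) h3
    _ = ((b : ℝ) + 2) / 2 ^ i := by ring

lemma ZNB_dbl (I i0 : ℕ) (R : ℕ → ℕ → Prop) [∀ i j, Decidable (R i j)] (c : ℝ) (hc : 0 ≤ c)
    (h : ∀ i, ∑ j ∈ range I, (if R i j then (1 : ℝ) / 2 ^ (max i j) else 0) ≤ c / 2 ^ i) :
    ∑ x ∈ (range I ×ˢ range I).filter (fun x : ℕ × ℕ => i0 ≤ x.1 ∧ R x.1 x.2), (1 : ℝ) / 2 ^ (max x.1 x.2) ≤ c * (2 / 2 ^ i0) := by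
  rw [sum_filter, sum_product]
  have h1 : ∀ i ∈ range I, ∑ j ∈ range I, (if i0 ≤ i ∧ R i j then (1 : ℝ) / 2 ^ (max i j) else 0) ≤
      if i0 ≤ i then c * (1 / 2 ^ i) else 0 := by
    intro i _
    by_cases hi : i0 ≤ i
    · rw [if_pos hi]
      refine le_trans (le_of_eq ?_) ((h i).trans (le_of_eq (by ring)))
      refine sum_congr rfl fun j _ => ?_
      by_cases hR : R i j
      · rw [if_pos hR, if_pos ⟨hi, hR⟩]
      · rw [if_neg hR, if_neg fun h => hR h.2]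
    · rw [if_neg hi]
      refine le_of_eq (sum_eq_zero fun j _ => ?_)
      rw [if_neg fun h => hi h.1]
  refine (sum_le_sum h1).trans ?_
  rw [← sum_filter, ← mul_sum]
  exact mul_le_mul_of_nonneg_left (ZNB_tail i0 I) hc

lemma ZNB_all (I : ℕ) : ∑ x ∈ (range I ×ˢ range I).filter (fun _ : ℕ × ℕ => True), (1 : ℝ) / 2 ^ (max x.1 x.2) ≤ 8 := by
  have h0 : ∑ i ∈ range I, ∑ j ∈ range I, (if i + 0 ≤ j then (1 : ℝ) / 2 ^ (max i j) else 0) ≤ 4 := by
    calc ∑ i ∈ range I, ∑ j ∈ range I, (if i + 0 ≤ j then (1 : ℝ) / 2 ^ (max i j) else 0)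
        ≤ ∑ i ∈ range I, (2 : ℝ) * (1 / 2 ^ i) := sum_le_sum fun i _ => (ZNB_rowD I i 0).trans (le_of_eq (by rw [add_zero]; ring))
      _ = 2 * ∑ i ∈ range I, (1 : ℝ) / 2 ^ i := by rw [mul_sum]
      _ ≤ 2 * 2 := mul_le_mul_of_nonneg_left (ZL_geo I) (by norm_num)
      _ = 4 := by norm_num
  have h0' : ∑ i ∈ range I, ∑ j ∈ range I, (if j + 0 ≤ i then (1 : ℝ) / 2 ^ (max i j) else 0) ≤ 4 := by
    rw [sum_comm]
    refine le_trans (le_of_eq ?_) h0
    refine sum_congr rfl fun i _ => sum_congr rfl fun j _ => ?_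
    rw [max_comm]
  rw [filter_true, sum_product]
  have h1 : ∑ i ∈ range I, ∑ j ∈ range I, (1 : ℝ) / 2 ^ (max i j) ≤
      ∑ i ∈ range I, ∑ j ∈ range I, ((if i + 0 ≤ j then (1 : ℝ) / 2 ^ (max i j) else 0) + (if j + 0 ≤ i then (1 : ℝ) / 2 ^ (max i j) else 0)) := by
    refine sum_le_sum fun i _ => sum_le_sum fun j _ => ?_
    have p : (0 : ℝ) ≤ 1 / 2 ^ (max i j) := by positivity
    rcases le_total i j with h | h
    · rw [if_pos (by omega)]
      have : (0 : ℝ) ≤ if j + 0 ≤ i then (1 : ℝ) / 2 ^ (max i j) else 0 := by split_ifs <;> positivity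
      linarith
    · rw [if_pos (show j + 0 ≤ i by omega)]
      have : (0 : ℝ) ≤ if i + 0 ≤ j then (1 : ℝ) / 2 ^ (max i j) else 0 := by split_ifs <;> positivity
      linarith
  refine h1.trans ?_
  simp only [sum_add_distrib]
  linarith

open Classical in
/-- the sum over the slice, with the dyadic boxes -/
lemma ZNB_main (h2 : ZFB_stmt) (η₀ η C₁ N₁ N : ℝ) (hη : η ≤ η₀)
    (hX : ∀ N : ℝ, N₁ ≤ N → ∀ i j : ℕ, (2 : ℝ) ^ (max i j) ≤ N ^ η₀ → TD7 (fX (√N) i j) N ≤ C₁ * (N / 2 ^ (max i j)))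
    (hN : N₁ ≤ N) (hN1 : 1 ≤ N) (hC₁ : 0 ≤ C₁) (I : ℕ) (hI : (2 : ℝ) ^ I ≤ N ^ η)
    (S : (K : Type) → [Field K] → [NumberField K] → Set (ClassGroup (𝓞 K))) (P : ℕ → ℕ → Prop)
    (hS : ∀ (K : Type) [Field K] [NumberField K], (∃ Q : QF K, Q.D < 0) → S K ⊆ ORD7 K ∧ ∀ c ∈ S K, ∀ i j : ℕ, c ∈ XX7 K (√N) i j → P i j)
    (T : ℝ) (hT : (∑ x ∈ (range I ×ˢ range I).filter (fun x : ℕ × ℕ => P x.1 x.2), (1 : ℝ) / 2 ^ (max x.1 x.2)) ≤ T) :
    TD7 (fun _ E => ((S E.K).ncard : ℝ)) N ≤ C₁ * N * T + 2 * TD7 (fC (√N / 2 ^ I)) N := by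
  have hD : ∀ D ∈ DN N, SF (fun _ E => ((S E.K).ncard : ℝ)) D ≤
      (∑ x ∈ (range I ×ˢ range I).filter (fun x : ℕ × ℕ => P x.1 x.2), SF (fX (√N) x.1 x.2) D) + 2 * SF (fC (√N / 2 ^ I)) D := by
    intro D hD
    obtain ⟨E, hE, -, -, hQ, hD0, -, -, hDN⟩ := ZL_fld N D hD
    rw [hE, hE]
    have e : ∑ x ∈ (range I ×ˢ range I).filter (fun x : ℕ × ℕ => P x.1 x.2), SF (fX (√N) x.1 x.2) D =
        ∑ x ∈ (range I ×ˢ range I).filter (fun x : ℕ × ℕ => P x.1 x.2), fX (√N) x.1 x.2 D E :=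
      sum_congr rfl fun x _ => hE _
    rw [e]
    have hQ0 : E.Q.D < 0 := by rw [hQ]; exact hD0
    obtain ⟨s1, s2⟩ := hS E.K ⟨E.Q, hQ0⟩
    refine h2 E.K E.Q hQ0 (√N) I ?_ (S E.K) P s1 s2
    refine Real.sqrt_le_sqrt ?_
    rw [hQ, abs_of_neg (by exact_mod_cast hD0)]
    exact hDN
  unfold TD7
  refine (sum_le_sum hD).trans ?_
  rw [sum_add_distrib, sum_comm, ← mul_sum]
  refine add_le_add ?_ le_rfl
  refine le_trans ?_ (mul_le_mul_of_nonneg_left hT (mul_nonneg hC₁ (by linarith)))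
  rw [mul_sum]
  refine sum_le_sum fun x hx => ?_
  rw [mem_filter, mem_product, mem_range, mem_range] at hx
  have h5 : (2 : ℝ) ^ (max x.1 x.2) ≤ N ^ η₀ := by
    refine le_trans (pow_le_pow_right₀ (by norm_num) (by omega : max x.1 x.2 ≤ I)) (hI.trans ?_)
    exact Real.rpow_le_rpow_of_exponent_le hN1 hη
  have h6 := hX N hN x.1 x.2 h5
  unfold TD7 at h6
  refine h6.trans (le_of_eq ?_)
  ring

lemma ZNB_pow (M : ℝ) (hM : 0 < M) (a b : ℕ) (h : M / 2 ^ (a + 1) < M / 2 ^ b) : b ≤ a := by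
  by_contra hc
  push Not at hc
  have : (2 : ℝ) ^ (a + 1) ≤ 2 ^ b := pow_le_pow_right₀ (by norm_num) hc
  have := div_le_div_of_nonneg_left hM.le (by positivity : (0 : ℝ) < 2 ^ (a + 1)) this
  linarith

/-- a large power -/
lemma ZNB_large (s A : ℝ) (hs : 0 < s) : ∃ N₀ : ℝ, 1 ≤ N₀ ∧ ∀ N : ℝ, N₀ ≤ N → A ≤ N ^ s := by
  have h := (tendsto_rpow_atTop hs).eventually_ge_atTop A
  obtain ⟨N₀, h0⟩ := Filter.eventually_atTop.1 h
  exact ⟨max N₀ 1, le_max_right _ _, fun N hN => h0 N ((le_max_left _ _).trans hN)⟩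

theorem ZNB (h1 : MU7_stmt) (h2 : ZFB_stmt) (h3 : ZXX_stmt) (h4 : ZSM_stmt) : ZNB_stmt := by
  classical
  obtain ⟨η₀, C₁, N₁, hη₀, hC₁, hX⟩ := h3
  set η : ℝ := min η₀ (1 / 4) with hη
  have hη0 : 0 < η := lt_min hη₀ (by norm_num)
  have hη1 : η ≤ η₀ := min_le_left _ _
  have hη2 : η ≤ 1 / 4 := min_le_right _ _
  obtain ⟨C₂, hC₂, hsm⟩ := h4 (η / 4) (by positivity)
  -- the small term
  have small : ∀ N : ℝ, 1 ≤ N → ∃ I : ℕ, (2 : ℝ) ^ I ≤ N ^ η ∧ 2 * TD7 (fC (√N / 2 ^ I)) N ≤ 4 * C₂ * N ^ (1 - η / 2) := by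
    intro N hN
    have hN0 : 0 < N := by linarith
    obtain ⟨I, hI1, hI2⟩ := exists_nat_pow_near (Real.one_le_rpow hN hη0.le) (by norm_num : (1 : ℝ) < 2)
    refine ⟨I, hI1, ?_⟩
    have p2 : (0 : ℝ) < 2 ^ I := by positivity
    have hs0 : 0 < √N := Real.sqrt_pos.2 hN0
    have hs : √N = N ^ (1 / 2 : ℝ) := Real.sqrt_eq_rpow N
    have hY1 : 1 ≤ √N / 2 ^ I := by
      rw [le_div_iff₀ p2, one_mul]
      refine hI1.trans ?_
      rw [hs]
      exact Real.rpow_le_rpow_of_exponent_le hN (by linarith)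
    have hYN : √N / 2 ^ I ≤ N := by
      rw [div_le_iff₀ p2]
      have a1 : √N ≤ N := by
        rw [hs]
        calc N ^ (1 / 2 : ℝ) ≤ N ^ (1 : ℝ) := Real.rpow_le_rpow_of_exponent_le hN (by norm_num)
          _ = N := Real.rpow_one N
      have a2 : (1 : ℝ) ≤ 2 ^ I := one_le_pow₀ (by norm_num)
      nlinarith
    have hY2 : √N / 2 ^ I * √N ≤ 2 * N ^ (1 - η) := by
      have e : √N / 2 ^ I * √N = N / 2 ^ I := by
        rw [div_mul_eq_mul_div, Real.mul_self_sqrt hN0.le]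
      rw [e, div_le_iff₀ p2]
      have e2 : N = N ^ (1 - η) * N ^ η := by
        rw [← Real.rpow_add hN0]
        simp
      have p3 : 0 < N ^ (1 - η) := Real.rpow_pos_of_pos hN0 _
      have hI3 : N ^ η ≤ 2 * 2 ^ I := by
        rw [pow_succ] at hI2
        linarith
      calc N = N ^ (1 - η) * N ^ η := e2
        _ ≤ N ^ (1 - η) * (2 * 2 ^ I) := mul_le_mul_of_nonneg_left hI3 p3.le
        _ = 2 * N ^ (1 - η) * 2 ^ I := by ring
    have hb := hsm N (√N / 2 ^ I) hN hY1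
    have hp : (N * (√N / 2 ^ I)) ^ (η / 4) ≤ N ^ (η / 2) := by
      calc (N * (√N / 2 ^ I)) ^ (η / 4) ≤ (N * N) ^ (η / 4) :=
            Real.rpow_le_rpow (by positivity) (mul_le_mul_of_nonneg_left hYN hN0.le) (by positivity)
        _ = N ^ (η / 2) := by
          rw [Real.mul_rpow hN0.le hN0.le, ← Real.rpow_add hN0]
          congr 1
          ring
    have e3 : N ^ (η / 2) * N ^ (1 - η) = N ^ (1 - η / 2) := by
      rw [← Real.rpow_add hN0]
      congr 1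
      ring
    calc 2 * TD7 (fC (√N / 2 ^ I)) N ≤ 2 * (C₂ * (N * (√N / 2 ^ I)) ^ (η / 4) * (√N / 2 ^ I * √N)) :=
          mul_le_mul_of_nonneg_left hb (by norm_num)
      _ ≤ 2 * (C₂ * N ^ (η / 2) * (2 * N ^ (1 - η))) := by
        refine mul_le_mul_of_nonneg_left ?_ (by norm_num)
        refine mul_le_mul (mul_le_mul_of_nonneg_left hp (by linarith)) hY2 (by positivity) ?_
        have := Real.rpow_pos_of_pos hN0 (η / 2)
        positivity
      _ = 4 * C₂ * (N ^ (η / 2) * N ^ (1 - η)) := by ring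
      _ = 4 * C₂ * N ^ (1 - η / 2) := by rw [e3]
  have hC10 : 0 ≤ C₁ := by linarith
  refine ⟨η / 8, 16 * C₁ + 1, by positivity, by linarith, ?_, ?_⟩
  · -- all classes
    obtain ⟨N₂, hN₂, hl⟩ := ZNB_large (η / 2) (4 * C₂) (by positivity)
    refine ⟨max N₁ N₂, fun N hN => ?_⟩
    have hNN : N₁ ≤ N := (le_max_left _ _).trans hN
    have hN2 : N₂ ≤ N := (le_max_right _ _).trans hN
    have hN1 : 1 ≤ N := hN₂.trans hN2
    have hN0 : 0 < N := by linarith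
    obtain ⟨I, hI, hsmall⟩ := small N hN1
    have hm := ZNB_main h2 η₀ η C₁ N₁ N hη1 hX hNN hN1 hC10 I hI (fun K _ _ => ORD7 K) (fun _ _ => True)
      (fun K _ _ _ => ⟨subset_rfl, fun _ _ _ _ _ => trivial⟩) 8 (by convert ZNB_all I)
    have e1 : TD7 fO N = TD7 (fun _ E => ((ORD7 E.K).ncard : ℝ)) N := rfl
    rw [e1]
    have hle : 4 * C₂ * N ^ (1 - η / 2) ≤ N := by
      have e2 : N = N ^ (η / 2) * N ^ (1 - η / 2) := by
        rw [← Real.rpow_add hN0]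
        simp
      have p3 : 0 < N ^ (1 - η / 2) := Real.rpow_pos_of_pos hN0 _
      calc 4 * C₂ * N ^ (1 - η / 2) ≤ N ^ (η / 2) * N ^ (1 - η / 2) := mul_le_mul_of_nonneg_right (hl N hN2) p3.le
        _ = N := e2.symm
    nlinarith [mul_nonneg hC10 hN0.le]
  · intro b
    obtain ⟨N₂, hN₂, hl⟩ := ZNB_large (3 * η / 8) (4 * C₂ * 2 ^ b) (by positivity)
    refine ⟨max N₁ N₂, fun N Y hN hY1 hY2 => ?_⟩
    have hNN : N₁ ≤ N := (le_max_left _ _).trans hN
    have hN2 : N₂ ≤ N := (le_max_right _ _).trans hN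
    have hN1 : 1 ≤ N := hN₂.trans hN2
    have hN0 : 0 < N := by linarith
    have hs0 : 0 < √N := Real.sqrt_pos.2 hN0
    have hs : √N = N ^ (1 / 2 : ℝ) := Real.sqrt_eq_rpow N
    have hY0 : 0 < Y := lt_of_lt_of_le (Real.rpow_pos_of_pos hN0 _) hY1
    obtain ⟨I, hI, hsmall⟩ := small N hN1
    -- the small term against `Y √N / 2 ^ b`
    have hle : 4 * C₂ * N ^ (1 - η / 2) ≤ Y * √N / 2 ^ b := by
      rw [le_div_iff₀ (by positivity)]
      have e2 : N ^ (1 - η / 8) = N ^ (3 * η / 8) * N ^ (1 - η / 2) := by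
        rw [← Real.rpow_add hN0]
        congr 1
        ring
      have e3 : N ^ (1 / 2 - η / 8) * √N = N ^ (1 - η / 8) := by
        rw [hs, ← Real.rpow_add hN0]
        congr 1
        ring
      have p3 : 0 < N ^ (1 - η / 2) := Real.rpow_pos_of_pos hN0 _
      calc 4 * C₂ * N ^ (1 - η / 2) * 2 ^ b = (4 * C₂ * 2 ^ b) * N ^ (1 - η / 2) := by ring
        _ ≤ N ^ (3 * η / 8) * N ^ (1 - η / 2) := mul_le_mul_of_nonneg_right (hl N hN2) p3.le
        _ = N ^ (1 / 2 - η / 8) * √N := by rw [e3, e2]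
        _ ≤ Y * √N := mul_le_mul_of_nonneg_right hY1 hs0.le
    -- the dyadic position of `Y`
    have hx : 1 ≤ √N / Y := by
      rw [le_div_iff₀ hY0]
      linarith
    obtain ⟨i₀, hi1, hi2⟩ := exists_nat_pow_near hx (by norm_num : (1 : ℝ) < 2)
    have hi1' : Y ≤ √N / 2 ^ i₀ := by
      rw [le_div_iff₀ hY0] at hi1
      rw [le_div_iff₀ (by positivity)]
      linarith
    have hi2' : N / 2 ^ i₀ ≤ 2 * (Y * √N) := by
      rw [div_lt_iff₀ hY0, pow_succ] at hi2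
      rw [div_le_iff₀ (by positivity)]
      have e : N = √N * √N := (Real.mul_self_sqrt hN0.le).symm
      calc N = √N * √N := e
        _ ≤ (2 ^ i₀ * 2 * Y) * √N := mul_le_mul_of_nonneg_right hi2.le hs0.le
        _ = 2 * (Y * √N) * 2 ^ i₀ := by ring
    have hpos : ∀ (K : Type) [Field K] [NumberField K], (∃ Q : QF K, Q.D < 0) → ∀ c ∈ CLS K Y, c ^ 5 = 1 ∧ c ≠ 1 ∧
        ∀ i j : ℕ, c ∈ XX7 K (√N) i j → i₀ ≤ i := by
      intro K _ _ hQ c hc
      obtain ⟨Q, hQ⟩ := hQ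
      obtain ⟨c1, c2, c3⟩ := (ZL_CLS h1 Q hQ Y c).1 hc
      refine ⟨c1, c2, fun i j hij => ?_⟩
      obtain ⟨-, -, x1, -, -, -⟩ := hij
      exact ZNB_pow (√N) hs0 i i₀ (x1.trans_le (c3.trans hi1'))
    constructor
    · have hd := ZNB_dbl I i₀ (fun i j => i ≤ j + b) ((b : ℝ) + 2) (by positivity) (fun i => ZNB_rowN I i b)
      have hm := ZNB_main h2 η₀ η C₁ N₁ N hη1 hX hNN hN1 hC10 I hI (fun K _ _ => NR7 K (2 ^ b) Y) (fun i j => i₀ ≤ i ∧ i ≤ j + b) ?_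
        (((b : ℝ) + 2) * (2 / 2 ^ i₀)) (by convert hd)
      · have e1 : TD7 (fN (2 ^ b) Y) N = TD7 (fun _ E => ((NR7 E.K (2 ^ b) Y).ncard : ℝ)) N := rfl
        rw [e1]
        have e4 : C₁ * N * (((b : ℝ) + 2) * (2 / 2 ^ i₀)) = 2 * C₁ * ((b : ℝ) + 2) * (N / 2 ^ i₀) := by ring
        rw [e4] at hm
        have hb2 : 2 * C₁ * ((b : ℝ) + 2) * (N / 2 ^ i₀) ≤ 2 * C₁ * ((b : ℝ) + 2) * (2 * (Y * √N)) :=
          mul_le_mul_of_nonneg_left hi2' (by positivity)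
        have hYN : 0 < Y * √N := mul_pos hY0 hs0
        have hb3 : Y * √N / 2 ^ b ≤ Y * √N := div_le_self hYN.le (one_le_pow₀ (by norm_num))
        have hb0 : (0 : ℝ) ≤ b := Nat.cast_nonneg b
        have hfin : TD7 (fun _ E => ((NR7 E.K (2 ^ b) Y).ncard : ℝ)) N ≤ 2 * C₁ * ((b : ℝ) + 2) * (2 * (Y * √N)) + Y * √N := by
          linarith
        refine hfin.trans ?_
        have hk : 0 ≤ C₁ * (Y * √N) := by positivity
        nlinarith [mul_nonneg hk hb0, mul_nonneg hYN.le hb0]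
      · intro K _ _ hQ
        refine ⟨fun c hc => ?_, fun c hc i j hij => ?_⟩
        · obtain ⟨c1, c2, -⟩ := hpos K hQ c hc.1
          exact ⟨c1, c2⟩
        · obtain ⟨-, -, c3⟩ := hpos K hQ c hc.1
          refine ⟨c3 i j hij, ?_⟩
          obtain ⟨-, -, -, x2, x3, -⟩ := hij
          have x4 := hc.2
          have x5 : √N / 2 ^ (j + 1) < 2 ^ b * (√N / 2 ^ i) := x3.trans_le (x4.trans (mul_le_mul_of_nonneg_left x2 (by positivity)))
          by_contra hcon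
          push Not at hcon
          have x6 : (2 : ℝ) ^ b * (√N / 2 ^ i) ≤ √N / 2 ^ (j + 1) := by
            rw [mul_div_assoc', div_le_div_iff₀ (by positivity) (by positivity)]
            have x7 : (2 : ℝ) ^ b * 2 ^ (j + 1) ≤ 2 ^ i := by
              rw [← pow_add]
              exact pow_le_pow_right₀ (by norm_num) (by omega)
            calc (2 : ℝ) ^ b * √N * 2 ^ (j + 1) = √N * (2 ^ b * 2 ^ (j + 1)) := by ring
              _ ≤ √N * 2 ^ i := mul_le_mul_of_nonneg_left x7 hs0.le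
          linarith
    · have hd := ZNB_dbl I i₀ (fun i j => i + b ≤ j) (2 / 2 ^ b) (by positivity)
        (fun i => (ZNB_rowD I i b).trans (le_of_eq (by rw [pow_add, div_div, mul_comm])))
      have hm := ZNB_main h2 η₀ η C₁ N₁ N hη1 hX hNN hN1 hC10 I hI (fun K _ _ => CD7 K (2 ^ b) Y) (fun i j => i₀ ≤ i ∧ i + b ≤ j) ?_
        ((2 / 2 ^ b) * (2 / 2 ^ i₀)) (by convert hd)
      · have e1 : TD7 (fD (2 ^ b) Y) N = TD7 (fun _ E => ((CD7 E.K (2 ^ b) Y).ncard : ℝ)) N := rfl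
        rw [e1]
        have e4 : C₁ * N * ((2 / 2 ^ b) * (2 / 2 ^ i₀)) = 4 * C₁ / 2 ^ b * (N / 2 ^ i₀) := by ring
        rw [e4] at hm
        have hb2 : 4 * C₁ / 2 ^ b * (N / 2 ^ i₀) ≤ 4 * C₁ / 2 ^ b * (2 * (Y * √N)) :=
          mul_le_mul_of_nonneg_left hi2' (by positivity)
        have hYN : 0 < Y * √N := mul_pos hY0 hs0
        have hfin : TD7 (fun _ E => ((CD7 E.K (2 ^ b) Y).ncard : ℝ)) N ≤ 4 * C₁ / 2 ^ b * (2 * (Y * √N)) + Y * √N / 2 ^ b := by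
          linarith
        refine hfin.trans ?_
        have e5 : 4 * C₁ / 2 ^ b * (2 * (Y * √N)) + Y * √N / 2 ^ b = (8 * C₁ + 1) / 2 ^ b * (Y * √N) := by ring
        rw [e5]
        refine mul_le_mul_of_nonneg_right (div_le_div_of_nonneg_right (by linarith) (by positivity)) hYN.le
      · intro K _ _ hQ
        refine ⟨fun c hc => ?_, fun c hc i j hij => ?_⟩
        · obtain ⟨c1, c2, -⟩ := hpos K hQ c hc.1
          exact ⟨c1, c2⟩
        · obtain ⟨-, -, c3⟩ := hpos K hQ c hc.1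
          refine ⟨c3 i j hij, ?_⟩
          obtain ⟨-, -, -, x2, x3, -⟩ := hij
          have x4 := hc.2
          have x5 : 2 ^ b * (√N / 2 ^ (j + 1)) < √N / 2 ^ i :=
            (mul_lt_mul_of_pos_left x3 (by positivity)).trans (x4.trans_le x2)
          by_contra hcon
          push Not at hcon
          have x6 : √N / 2 ^ i ≤ (2 : ℝ) ^ b * (√N / 2 ^ (j + 1)) := by
            rw [mul_div_assoc', div_le_div_iff₀ (by positivity) (by positivity)]
            have x7 : (2 : ℝ) ^ (j + 1) ≤ 2 ^ b * 2 ^ i := by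
              rw [← pow_add]
              exact pow_le_pow_right₀ (by norm_num) (by omega)
            calc √N * 2 ^ (j + 1) ≤ √N * (2 ^ b * 2 ^ i) := mul_le_mul_of_nonneg_left x7 hs0.le
              _ = (2 : ℝ) ^ b * √N * 2 ^ i := by ring
          linarith

end Pool.Agent.T7
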